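import Pool.Agent.N915.ML.Deriv

/-! # The cosine as a uniform limit of combinations of the signs of `cos (m θ)` -/

set_option autoImplicit false

namespace Pool.Agent.N915.SG

open Finset Filter Topology
open Pool.Agent.N915.ML
open Pool.Agent.H807R2.Dav (ee norm_ee ee_add ee_zero ee_int ee_add_int ee_pow ee_eq)
open Pool.Agent.H373R2.T7 (muR muR_abs)

/-- the character modulo 4 with complex values -/
noncomputable def chi : DirichletCharacter ℂ 4 := ZMod.χ₄.ringHomComp (Int.castRingHom ℂ)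

lemma chi_apply (a : ZMod 4) : chi a = ((ZMod.χ₄ a : ℤ) : ℂ) := rfl

lemma chi_neg_one : chi (-1) = -1 := by
  rw [chi_apply]
  have : ZMod.χ₄ (-1 : ZMod 4) = -1 := by decide
  rw [this]
  simp

lemma ee_quarter : ee (1 / 4) = Complex.I := by
  rw [ee_eq]
  have : ((2 * Real.pi * (1 / 4) : ℝ) : ℂ) * Complex.I = (Real.pi / 2 : ℂ) * Complex.I := by
    push_cast; ring
  rw [this, Complex.exp_mul_I]
  simp

lemma ee_neg_quarter_mul (n : ℕ) : ee (-((n : ℝ) / 4)) = (-Complex.I) ^ n := by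
  have h : ee (-(1 / 4 : ℝ)) = -Complex.I := by
    have h1 : ee (1 / 4) * ee (-(1 / 4 : ℝ)) = 1 := by
      rw [← ee_add]
      norm_num [ee_zero]
    rw [ee_quarter] at h1
    have h2 : Complex.I * (-Complex.I) = 1 := by
      rw [mul_neg, Complex.I_mul_I, neg_neg]
    exact mul_left_cancel₀ Complex.I_ne_zero (h1.trans h2.symm)
  rw [show -((n : ℝ) / 4) = n * (-(1 / 4 : ℝ)) by ring, ee_pow, h]

lemma cf_eq (j : ℕ) : cf chi j = (1 / 4) * ((-Complex.I) ^ j - (-Complex.I) ^ (3 * j)) := by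
  unfold cf
  have e : ∀ k : ℕ, ee (-((j : ℝ) * k / (4 : ℕ))) = (-Complex.I) ^ (j * k) := by
    intro k
    rw [← ee_neg_quarter_mul]
    congr 1
    push_cast
    ring
  simp only [e]
  rw [sum_range_succ, sum_range_succ, sum_range_succ, sum_range_one]
  have c0 : chi ((0 : ℕ) : ZMod 4) = 0 := by
    rw [chi_apply]; have : ZMod.χ₄ ((0 : ℕ) : ZMod 4) = 0 := by decide
    rw [this]; simp
  have c1 : chi ((1 : ℕ) : ZMod 4) = 1 := by
    rw [chi_apply]; have : ZMod.χ₄ ((1 : ℕ) : ZMod 4) = 1 := by decide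
    rw [this]; simp
  have c2 : chi ((2 : ℕ) : ZMod 4) = 0 := by
    rw [chi_apply]; have : ZMod.χ₄ ((2 : ℕ) : ZMod 4) = 0 := by decide
    rw [this]; simp
  have c3 : chi ((3 : ℕ) : ZMod 4) = -1 := by
    rw [chi_apply]; have : ZMod.χ₄ ((3 : ℕ) : ZMod 4) = -1 := by decide
    rw [this]; simp
  rw [c0, c1, c2, c3]
  push_cast
  ring

lemma cf0 : cf chi 0 = 0 := by rw [cf_eq]; simp

lemma I_pow3 : (-Complex.I) ^ 3 = Complex.I := by
  rw [show (-Complex.I) ^ 3 = -(Complex.I ^ 3) by ring, Complex.I_pow_three, neg_neg]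

lemma I_pow2 : (-Complex.I) ^ 2 = -1 := by
  rw [neg_sq, Complex.I_sq]

lemma cf1 : cf chi 1 = -(Complex.I / 2) := by
  rw [cf_eq]; norm_num [I_pow3]; ring

lemma cf2 : cf chi 2 = 0 := by
  rw [cf_eq, show 3 * 2 = 2 * 3 by norm_num, pow_mul, I_pow2]
  norm_num

lemma cf3 : cf chi 3 = Complex.I / 2 := by
  rw [cf_eq, I_pow3, show 3 * 3 = 9 by norm_num,
    show (-Complex.I) ^ 9 = ((-Complex.I) ^ 3) ^ 3 by rw [← pow_mul], I_pow3, Complex.I_pow_three]
  ring

lemma Phi_chi (y : ℝ) : Phi chi y = (Complex.I / 2) * ((psi (y + 3 / 4) - psi (y + 1 / 4) : ℝ) : ℂ) := by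
  unfold Phi
  rw [sum_range_succ, sum_range_succ, sum_range_succ, sum_range_one, cf0, cf1, cf2, cf3]
  push_cast
  ring


lemma cos_sign_lt (f : ℝ) (h0 : 0 ≤ f) (h1 : f < 1 / 4) : Real.sign (Real.cos (2 * Real.pi * f)) = 1 := by
  apply Real.sign_of_pos
  apply Real.cos_pos_of_mem_Ioo
  have hpi := Real.pi_pos
  constructor <;> nlinarith

lemma cos_sign_mid (f : ℝ) (h0 : 1 / 4 < f) (h1 : f < 3 / 4) :
    Real.sign (Real.cos (2 * Real.pi * f)) = -1 := by
  apply Real.sign_of_neg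
  apply Real.cos_neg_of_pi_div_two_lt_of_lt
  · have hpi := Real.pi_pos
    nlinarith
  · have hpi := Real.pi_pos
    nlinarith

lemma cos_sign_gt (f : ℝ) (h0 : 3 / 4 < f) (h1 : f < 1) :
    Real.sign (Real.cos (2 * Real.pi * f)) = 1 := by
  have e : Real.cos (2 * Real.pi * f) = Real.cos (2 * Real.pi * (1 - f)) := by
    rw [show 2 * Real.pi * (1 - f) = 2 * Real.pi - 2 * Real.pi * f by ring, Real.cos_two_pi_sub]
  rw [e]
  exact cos_sign_lt _ (by linarith) (by linarith)

lemma cos_sign_eq1 : Real.sign (Real.cos (2 * Real.pi * (1 / 4))) = 0 := by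
  rw [show 2 * Real.pi * (1 / 4) = Real.pi / 2 by ring, Real.cos_pi_div_two, Real.sign_zero]

lemma cos_sign_eq3 : Real.sign (Real.cos (2 * Real.pi * (3 / 4))) = 0 := by
  have e : Real.cos (2 * Real.pi * (3 / 4)) = Real.cos (2 * Real.pi * (1 / 4)) := by
    rw [show 2 * Real.pi * (3 / 4) = 2 * Real.pi - 2 * Real.pi * (1 / 4) by ring,
      Real.cos_two_pi_sub]
  rw [e, cos_sign_eq1]

lemma psi_of (t : ℝ) (n : ℤ) (f : ℝ) (h0 : 0 ≤ f) (h1 : f < 1) (h : t = n + f) :
    psi t = f - 1 / 2 := by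
  unfold psi
  rw [h, Int.fract_intCast_add, Int.fract_eq_self.2 ⟨h0, h1⟩]

lemma psi_comb (f : ℝ) (h0 : 0 ≤ f) (h1 : f < 1) :
    (psi (f + 3 / 4) - psi (f + 1 / 4)) + (psi (-f + 3 / 4) - psi (-f + 1 / 4)) =
      Real.sign (Real.cos (2 * Real.pi * f)) := by
  rcases lt_trichotomy f (1 / 4) with h | h | h
  · rw [cos_sign_lt f h0 h]
    rcases eq_or_lt_of_le h0 with g | g
    · subst g
      rw [psi_of (0 + 3 / 4) 0 (3 / 4) (by norm_num) (by norm_num) (by norm_num),
        psi_of (0 + 1 / 4) 0 (1 / 4) (by norm_num) (by norm_num) (by norm_num),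
        psi_of (-0 + 3 / 4) 0 (3 / 4) (by norm_num) (by norm_num) (by norm_num),
        psi_of (-0 + 1 / 4) 0 (1 / 4) (by norm_num) (by norm_num) (by norm_num)]
      norm_num
    · rw [psi_of (f + 3 / 4) 0 (f + 3 / 4) (by linarith) (by linarith) (by push_cast; ring),
        psi_of (f + 1 / 4) 0 (f + 1 / 4) (by linarith) (by linarith) (by push_cast; ring),
        psi_of (-f + 3 / 4) 0 (-f + 3 / 4) (by linarith) (by linarith) (by push_cast; ring),
        psi_of (-f + 1 / 4) 0 (-f + 1 / 4) (by linarith) (by linarith) (by push_cast; ring)]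
      ring
  · subst h
    rw [cos_sign_eq1, psi_of (1 / 4 + 3 / 4) 1 0 (by norm_num) (by norm_num) (by norm_num),
      psi_of (1 / 4 + 1 / 4) 0 (1 / 2) (by norm_num) (by norm_num) (by norm_num),
      psi_of (-(1 / 4) + 3 / 4) 0 (1 / 2) (by norm_num) (by norm_num) (by norm_num),
      psi_of (-(1 / 4) + 1 / 4) 0 0 (by norm_num) (by norm_num) (by norm_num)]
    norm_num
  · rcases lt_trichotomy f (3 / 4) with g | g | g
    · rw [cos_sign_mid f h g,
        psi_of (f + 3 / 4) 1 (f - 1 / 4) (by linarith) (by linarith) (by push_cast; ring),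
        psi_of (f + 1 / 4) 0 (f + 1 / 4) (by linarith) (by linarith) (by push_cast; ring),
        psi_of (-f + 3 / 4) 0 (-f + 3 / 4) (by linarith) (by linarith) (by push_cast; ring),
        psi_of (-f + 1 / 4) (-1) (-f + 5 / 4) (by linarith) (by linarith) (by push_cast; ring)]
      ring
    · subst g
      rw [cos_sign_eq3, psi_of (3 / 4 + 3 / 4) 1 (1 / 2) (by norm_num) (by norm_num) (by norm_num),
        psi_of (3 / 4 + 1 / 4) 1 0 (by norm_num) (by norm_num) (by norm_num),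
        psi_of (-(3 / 4) + 3 / 4) 0 0 (by norm_num) (by norm_num) (by norm_num),
        psi_of (-(3 / 4) + 1 / 4) (-1) (1 / 2) (by norm_num) (by norm_num) (by norm_num)]
      norm_num
    · rw [cos_sign_gt f g h1,
        psi_of (f + 3 / 4) 1 (f - 1 / 4) (by linarith) (by linarith) (by push_cast; ring),
        psi_of (f + 1 / 4) 1 (f - 3 / 4) (by linarith) (by linarith) (by push_cast; ring),
        psi_of (-f + 3 / 4) (-1) (-f + 7 / 4) (by linarith) (by linarith) (by push_cast; ring),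
        psi_of (-f + 1 / 4) (-1) (-f + 5 / 4) (by linarith) (by linarith) (by push_cast; ring)]
      ring

lemma psi_comb' (y : ℝ) :
    (psi (y + 3 / 4) - psi (y + 1 / 4)) + (psi (-y + 3 / 4) - psi (-y + 1 / 4)) =
      Real.sign (Real.cos (2 * Real.pi * y)) := by
  have h := psi_comb (Int.fract y) (Int.fract_nonneg y) (Int.fract_lt_one y)
  have e : y = Int.fract y + (⌊y⌋ : ℤ) := (Int.fract_add_floor y).symm
  have e1 : psi (y + 3 / 4) = psi (Int.fract y + 3 / 4) := by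
    rw [show y + 3 / 4 = (Int.fract y + 3 / 4) + (⌊y⌋ : ℤ) by linarith, psi_add_int]
  have e2 : psi (y + 1 / 4) = psi (Int.fract y + 1 / 4) := by
    rw [show y + 1 / 4 = (Int.fract y + 1 / 4) + (⌊y⌋ : ℤ) by linarith, psi_add_int]
  have e3 : psi (-y + 3 / 4) = psi (-Int.fract y + 3 / 4) := by
    rw [show -y + 3 / 4 = (-Int.fract y + 3 / 4) + ((-⌊y⌋ : ℤ) : ℝ) by push_cast; linarith,
      psi_add_int]
  have e4 : psi (-y + 1 / 4) = psi (-Int.fract y + 1 / 4) := by
    rw [show -y + 1 / 4 = (-Int.fract y + 1 / 4) + ((-⌊y⌋ : ℤ) : ℝ) by push_cast; linarith,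
      psi_add_int]
  have e5 : Real.cos (2 * Real.pi * y) = Real.cos (2 * Real.pi * Int.fract y) := by
    rw [show 2 * Real.pi * Int.fract y = 2 * Real.pi * y - (⌊y⌋ : ℤ) * (2 * Real.pi) by
      unfold Int.fract; ring, Real.cos_sub_int_mul_two_pi]
  rw [e1, e2, e3, e4, e5]
  exact h

/-- the coefficient `(π / 4) μ(m) χ₄(m) / m` -/
noncomputable def co (m : ℕ) : ℝ :=
  Real.pi / 4 * ((ArithmeticFunction.moebius m : ℤ) : ℝ) * ((ZMod.χ₄ (m : ZMod 4) : ℤ) : ℝ) / m

/-- **The cosine is a uniform limit of combinations of signs.** -/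
theorem cos_approx (ε : ℝ) (hε : 0 < ε) : ∃ M : ℕ, ∀ θ : ℝ,
    |Real.cos θ - ∑ m ∈ Icc 1 M, co m * Real.sign (Real.cos (m * θ))| ≤ ε := by
  obtain ⟨M0, h0, h⟩ := unif_conv chi (by norm_num)
  obtain ⟨n1, h1⟩ := Pool.Agent.H373R2.T7.ev_L' (Real.pi * (AA chi ^ 2 * 3) / ε)
  refine ⟨max M0 n1, fun θ => ?_⟩
  set M := max M0 n1 with hM
  have hlog := h1 M (le_max_right _ _)
  obtain ⟨g1, g2⟩ := h M (le_max_left _ _)
  set y : ℝ := θ / (2 * Real.pi) with hy
  have hpi := Real.pi_pos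
  have hθ : 2 * Real.pi * y = θ := by rw [hy]; field_simp
  have k1 := g2 y
  have k2 := g2 (-y)
  have eL : LL chi y + LL chi (-y) = 2 * Complex.I * (Real.cos θ : ℂ) / Real.pi := by
    unfold LL
    rw [chi_neg_one, ← hθ, ee_cos, neg_neg]
    have : (Real.pi : ℂ) ≠ 0 := by exact_mod_cast hpi.ne'
    field_simp
    ring
  have eS : SS chi M y + SS chi M (-y) = (2 * Complex.I / Real.pi) *
      ((∑ m ∈ Icc 1 M, co m * Real.sign (Real.cos (m * θ)) : ℝ) : ℂ) := by
    unfold SS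
    rw [← sum_add_distrib]
    push_cast
    rw [mul_sum]
    refine sum_congr rfl fun m hm => ?_
    have hm0 : (m : ℂ) ≠ 0 := by
      have := (mem_Icc.1 hm).1
      exact_mod_cast (by omega : m ≠ 0)
    have hc := psi_comb' (m * y)
    rw [show 2 * Real.pi * (m * y) = m * (2 * Real.pi * y) by ring, hθ] at hc
    rw [Phi_chi, Phi_chi, ← hc, chi_apply]
    have e2 : (m : ℝ) * -y = -(m * y) := by ring
    rw [e2]
    unfold co muR
    have : (Real.pi : ℂ) ≠ 0 := by exact_mod_cast hpi.ne'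
    push_cast
    field_simp
    ring
  have k3 : ‖(LL chi y + LL chi (-y)) - (SS chi M y + SS chi M (-y))‖ ≤
      2 * (AA chi ^ 2 * (3 / Real.log M)) := by
    rw [show (LL chi y + LL chi (-y)) - (SS chi M y + SS chi M (-y)) =
      (LL chi y - SS chi M y) + (LL chi (-y) - SS chi M (-y)) by ring]
    refine (norm_add_le _ _).trans ?_
    linarith
  rw [eL, eS] at k3
  have e3 : 2 * Complex.I * (Real.cos θ : ℂ) / Real.pi - (2 * Complex.I / Real.pi) *
      ((∑ m ∈ Icc 1 M, co m * Real.sign (Real.cos (m * θ)) : ℝ) : ℂ) =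
      (2 * Complex.I / Real.pi) * ((Real.cos θ - ∑ m ∈ Icc 1 M, co m * Real.sign (Real.cos (m * θ)) :
        ℝ) : ℂ) := by
    push_cast
    ring
  rw [e3, norm_mul, Complex.norm_real, Real.norm_eq_abs] at k3
  have e4 : ‖(2 * Complex.I / Real.pi : ℂ)‖ = 2 / Real.pi := by
    rw [norm_div, norm_mul, Complex.norm_I, Complex.norm_real, Real.norm_of_nonneg hpi.le]
    norm_num
  rw [e4] at k3
  have hl : 0 < Real.log M := by linarith
  have k4 : |Real.cos θ - ∑ m ∈ Icc 1 M, co m * Real.sign (Real.cos (m * θ))| ≤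
      Real.pi * (AA chi ^ 2 * 3) / Real.log M := by
    rw [le_div_iff₀ hl]
    have : 2 / Real.pi * |Real.cos θ - ∑ m ∈ Icc 1 M, co m * Real.sign (Real.cos (m * θ))| *
        (Real.pi * Real.log M / 2) ≤ 2 * (AA chi ^ 2 * (3 / Real.log M)) *
        (Real.pi * Real.log M / 2) := mul_le_mul_of_nonneg_right k3 (by positivity)
    have e5 : 2 / Real.pi * |Real.cos θ - ∑ m ∈ Icc 1 M, co m * Real.sign (Real.cos (m * θ))| *
        (Real.pi * Real.log M / 2) = |Real.cos θ - ∑ m ∈ Icc 1 M, co m *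
          Real.sign (Real.cos (m * θ))| * Real.log M := by
      generalize |Real.cos θ - ∑ m ∈ Icc 1 M, co m * Real.sign (Real.cos (m * θ))| = Z
      field_simp
    have e6 : 2 * (AA chi ^ 2 * (3 / Real.log M)) * (Real.pi * Real.log M / 2) =
        Real.pi * (AA chi ^ 2 * 3) := by
      field_simp
    linarith
  refine k4.trans ?_
  rw [div_le_iff₀ hl]
  rw [div_le_iff₀ hε] at hlog
  linarith

end Pool.Agent.N915.SG
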